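import Pool.Agent.W398.SG.Stm

namespace Pool.Agent.W409.SG.Conj

open Pool.Agent.W37.SG Pool.Agent.W398.SG
open scoped Matrix commutatorElement

universe u

section

variable {p : ℕ} [Fact p.Prime] {d : ℕ} {R : Type u} [Group R] [TopologicalSpace R]
    [IsTopologicalGroup R] (T : Subgroup R) [T.Normal]
    (e : T ≃ₜ* Multiplicative (Fin d → ℤ_[p]))

/-- the conjugation in coordinates -/
noncomputable def fa (r : R) : (Fin d → ℤ_[p]) →+ (Fin d → ℤ_[p]) where
  toFun v := Multiplicative.toAdd (e (MulAut.conjNormal r (e.symm (Multiplicative.ofAdd v))))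
  map_zero' := by
    rw [ofAdd_zero, map_one, map_one, map_one, toAdd_one]
  map_add' v w := by
    rw [ofAdd_add, map_mul, map_mul, map_mul, toAdd_mul]

theorem fa_cont (r : R) : Continuous (fa T e r) := by
  have h1 : Continuous (fun v : Fin d → ℤ_[p] => e.symm (Multiplicative.ofAdd v)) :=
    e.symm.continuous.comp continuous_ofAdd
  have h2 : Continuous (fun t : T => (MulAut.conjNormal r t : T)) := by
    rw [continuous_induced_rng]
    have : (Subtype.val ∘ fun t : T => (MulAut.conjNormal r t : T)) =
        fun t : T => r * (t : R) * r⁻¹ := by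
      funext t
      exact MulAut.conjNormal_apply r t
    rw [this]
    fun_prop
  exact continuous_toAdd.comp (e.continuous.comp (h2.comp h1))

theorem fa_smul (r : R) (c : ℤ_[p]) (v : Fin d → ℤ_[p]) :
    fa T e r (c • v) = c • fa T e r v := by
  have h : (fun c : ℤ_[p] => fa T e r (c • v)) = fun c : ℤ_[p] => c • fa T e r v := by
    refine (PadicInt.denseRange_intCast (p := p)).equalizer ?_ ?_ ?_
    · exact (fa_cont T e r).comp (continuous_id.smul continuous_const)
    · exact continuous_id.smul continuous_const
    · funext n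
      simp only [Function.comp_apply]
      rw [Int.cast_smul_eq_zsmul, Int.cast_smul_eq_zsmul, map_zsmul]
  exact congrFun h c

/-- the linear representation -/
noncomputable def fl : R →* Module.End ℤ_[p] (Fin d → ℤ_[p]) where
  toFun r :=
    { toFun := fa T e r
      map_add' := fun v w => map_add _ v w
      map_smul' := fun c v => fa_smul T e r c v }
  map_one' := by
    refine LinearMap.ext fun v => ?_
    change Multiplicative.toAdd (e (MulAut.conjNormal (1 : R) (e.symm (Multiplicative.ofAdd v)))) = v
    rw [map_one, MulAut.one_apply, ContinuousMulEquiv.apply_symm_apply, toAdd_ofAdd]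
  map_mul' r s := by
    refine LinearMap.ext fun v => ?_
    change Multiplicative.toAdd (e (MulAut.conjNormal (r * s) (e.symm (Multiplicative.ofAdd v)))) =
      Multiplicative.toAdd (e (MulAut.conjNormal r (e.symm (Multiplicative.ofAdd
        (Multiplicative.toAdd (e (MulAut.conjNormal s (e.symm (Multiplicative.ofAdd v)))))))))
    rw [ofAdd_toAdd, ContinuousMulEquiv.symm_apply_apply, map_mul, MulAut.mul_apply]

theorem fl_apply (r : R) (v : Fin d → ℤ_[p]) : fl T e r v =
    Multiplicative.toAdd (e (MulAut.conjNormal r (e.symm (Multiplicative.ofAdd v)))) := rfl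

end

theorem main : S_CONJ.{u} := by
  intro p _ d R _ _ _ T _ e
  refine ⟨(LinearMap.toMatrixAlgEquiv' (R := ℤ_[p]) (n := Fin d)).toAlgHom.toRingHom.toMonoidHom.comp
    (fl T e), ?_⟩
  intro r t t' h
  have h1 : t' = MulAut.conjNormal r t := by
    apply Subtype.ext
    rw [h, MulAut.conjNormal_apply]
  change Multiplicative.toAdd (e t') = LinearMap.toMatrix' (fl T e r) *ᵥ
    Multiplicative.toAdd (e t)
  rw [LinearMap.toMatrix'_mulVec, fl_apply, ofAdd_toAdd, ContinuousMulEquiv.symm_apply_apply, h1]

end Pool.Agent.W409.SG.Conj
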